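import Pool.Agent.H88.Gb2

open Pool.Agent.H88.Gb Cardinal in
theorem Pool.Agent.Results.MP_63eeb0_an.Yes.result :
    ∃ (X : Type) (_ : NormedAddCommGroup X) (_ : NormedSpace ℝ X), CompleteSpace X ∧ Gur X ∧
      IsLeast {c | ∃ S : Set X, Dense S ∧ #S = c} ℵ₁ ∧
      ∃ e : (ℵ₁ : Cardinal.{0}).ord.ToType → X, MonoBasis e := by
  obtain ⟨A, hA⟩ := rich (mk_ord_toType ℵ₁) fun i =>
    le_aleph0_iff_set_countable.mp (lt_aleph_one_iff.mp (mk_Iio_toType_ord_lt i))
  exact ⟨XX A, inferInstance, inferInstance,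
    (Submodule.isClosed_topologicalClosure _).completeSpace_coe, gur A hA,
    dens A (mk_ord_toType ℵ₁), ex A, basis A⟩
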